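import Pool.Agent.X201.HS.LocD
import Pool.Agent.Y489.PH.Stm

/-!
Averages over a coset.
-/

set_option autoImplicit false

open MeasureTheory Set Metric Filter Topology
open scoped ENNReal NNReal

namespace Pool.Agent.X201.HS

open Pool.Agent.Y485.HS Pool.Agent.Y489.SP Pool.Agent.Y532.SP.LOCS
open Pool.Agent.Y489.PH (Triv)

/-- **averages over the closure of the powers of `g`** -/
theorem exists_av {n : ℕ} {H : Type} [Group H] [TopologicalSpace H] [IsTopologicalGroup H]
    [CompactSpace H] [T2Space H] {T : H → E n → E n} (hT : LocAct n H T) (h0 g : H) :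
    ∃ F : E n → E n, ContinuousOn F (BB n) ∧
      (∀ x ∈ BB n, T g x ∈ BB n → F (T g x) = F x) ∧
      (∀ x ∈ BB n, T g x = x → F x = T h0 x) ∧
      (∀ x ∈ BB n, ∀ η : ℝ,
        (∀ k ∈ (Subgroup.zpowers g).topologicalClosure, dist (T (h0 * k) x) (T h0 x) ≤ η) →
          dist (F x) (T h0 x) ≤ η) ∧
      (∀ m, ∀ x ∈ BB n, (∀ k ∈ (Subgroup.zpowers g).topologicalClosure, Am m (T (h0 * k)) x) →
        Am m F x) := by
  set K : Subgroup H := (Subgroup.zpowers g).topologicalClosure with hKdef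
  have hKclosed : IsClosed (K : Set H) := Subgroup.isClosed_topologicalClosure _
  have hgmem : g ∈ K := Subgroup.le_topologicalClosure _ (Subgroup.mem_zpowers g)
  have hKcomp : CompactSpace K := isCompact_iff_compactSpace.1 hKclosed.isCompact
  let _ : MeasurableSpace K := borel K
  have _ : BorelSpace K := ⟨rfl⟩
  let μ : Measure K := Measure.haarMeasure ⊤
  have hμ1 : IsProbabilityMeasure μ := ⟨by
    have := Measure.haarMeasure_self (K₀ := (⊤ : TopologicalSpace.PositiveCompacts K))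
    simpa using this⟩
  let S : K → E n → E n := fun k x => T (h0 * ((k : H))⁻¹) x
  have hScont : ContinuousOn (fun q : K × E n => S q.1 q.2) (univ ×ˢ BB n) := by
    have hc : Continuous (fun q : K × E n => (h0 * (((q.1 : K) : H))⁻¹, q.2)) := by fun_prop
    refine hT.cont.comp hc.continuousOn ?_
    rintro ⟨k, x⟩ ⟨-, hx⟩
    exact ⟨mem_univ _, hx⟩
  set F : E n → E n := fun x => ∫ k, S k x ∂μ with hF
  have hSc1 : ∀ x ∈ BB n, Continuous (fun k => S k x) := by
    intro x hx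
    have hc : Continuous (fun k : K => (k, x)) := by fun_prop
    exact hScont.comp_continuous hc (fun k => ⟨mem_univ _, hx⟩)
  have hSint : ∀ x ∈ BB n, Integrable (fun k => S k x) μ := fun x hx =>
    (hSc1 x hx).integrable_of_hasCompactSupport (HasCompactSupport.of_compactSpace _)
  have hFc : ContinuousOn F (BB n) := by
    have hb : ∃ C : ℝ, ∀ (k : K) (x : E n), x ∈ BB n → ‖S k x‖ ≤ C := by
      refine ⟨4 + 1 / 4, fun k x hx => ?_⟩
      have h1 := norm_T_le hT (h0 * ((k : H))⁻¹) hx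
      have h2 := mem_BB.1 hx
      show ‖T (h0 * ((k : H))⁻¹) x‖ ≤ _
      linarith
    obtain ⟨C, hC⟩ := hb
    intro x hx
    refine tendsto_integral_filter_of_dominated_convergence (fun _ => C) ?_ ?_ ?_ ?_
    · filter_upwards [self_mem_nhdsWithin] with z hz
      exact (hSc1 z hz).aestronglyMeasurable
    · filter_upwards [self_mem_nhdsWithin] with z hz
      exact Eventually.of_forall fun k => hC k z hz
    · exact integrable_const _
    · refine Eventually.of_forall fun k => ?_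
      have h1 : ContinuousOn (fun z => S k z) (BB n) := hT.cont_right _
      exact h1 x hx
  refine ⟨F, hFc, ?_, ?_, ?_, ?_⟩
  · intro x hx hkx
    have h1 : ∀ k' : K, S k' (T g x) = S ((⟨g, hgmem⟩ : K)⁻¹ * k') x := by
      intro k'
      show T (h0 * ((k' : H))⁻¹) (T g x) = T (h0 * ((((⟨g, hgmem⟩ : K)⁻¹ * k' : K) : H))⁻¹) x
      rw [← hT.mul _ _ x hx hkx]
      congr 1
      simp [mul_assoc]
    show ∫ k', S k' (T g x) ∂μ = ∫ k', S k' x ∂μ
    simp_rw [h1]
    exact integral_mul_left_eq_self (fun k' => S k' x) (⟨g, hgmem⟩ : K)⁻¹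
  · intro x hx hfx
    have hall := fix_closure hT hx g hfx
    have h1 : ∀ k : K, S k x = T h0 x := by
      intro k
      have h2 : T (((k⁻¹ : K)) : H) x = x := hall _ (k⁻¹).2
      have h3 := hT.mul h0 (((k⁻¹ : K)) : H) x hx (by rw [h2]; exact hx)
      show T (h0 * ((k : H))⁻¹) x = T h0 x
      rw [h2] at h3
      simpa using h3
    show ∫ k, S k x ∂μ = T h0 x
    simp_rw [h1]
    simp
  · intro x hx η hη
    have h1 : F x - T h0 x = ∫ k, (S k x - T h0 x) ∂μ := by
      rw [integral_sub (hSint x hx) (integrable_const _)]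
      simp [hF]
    rw [dist_eq_norm, h1]
    have h2 := norm_integral_le_of_norm_le_const (μ := μ) (f := fun k => S k x - T h0 x) (C := η)
      (Eventually.of_forall fun k => by
        have := hη ((k : H))⁻¹ (K.inv_mem k.2)
        rwa [dist_eq_norm] at this)
    simpa using h2
  · intro m x hx hA z hz hzx
    show dist (∫ k, S k z ∂μ) (∫ k, S k x ∂μ) ≤ _
    rw [dist_eq_norm, ← integral_sub (hSint z hz) (hSint x hx)]
    have h2 := norm_integral_le_of_norm_le_const (μ := μ) (f := fun k => S k z - S k x)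
      (C := m * dist z x ^ ex n m) (Eventually.of_forall fun k => by
        have := hA ((k : H))⁻¹ (K.inv_mem k.2) z hz hzx
        rwa [dist_eq_norm (T (h0 * ((k : H))⁻¹) z)] at this)
    simpa using h2

/-- every map is pointwise Hölder off a countable set -/
def HLoc {n : ℕ} (u : E n → E n) : Prop :=
  {x : E n | x ∈ ball (0 : E n) 4 ∧ ¬ ∃ m, Am m u x}.Countable

/-- points near which one open subgroup acts trivially -/
theorem am_of_triv {n : ℕ} {K : Type} [Group K] [TopologicalSpace K] [IsTopologicalGroup K]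
    [CompactSpace K] {T : K → E n → E n} (hT : LocAct n K T) (hP : ∀ k, HLoc (T k)) (h0 : K)
    {K0 : Subgroup K} (hK0 : IsOpen (K0 : Set K)) {V : Set (E n)}
    (hV : ∀ x ∈ V, ∀ᶠ z in 𝓝 x, ∀ k ∈ K0, T k z = z) :
    {x | x ∈ V ∧ x ∈ ball (0 : E n) 4 ∧ ¬ ∃ m, ∀ k, Am m (T (h0 * k)) x}.Countable := by
  have hfin : Finite (K ⧸ K0) := Subgroup.quotient_finite_of_isOpen K0 hK0
  have hc : (⋃ q : K ⧸ K0,
      {x : E n | x ∈ ball (0 : E n) 4 ∧ ¬ ∃ m, Am m (T (h0 * q.out)) x}).Countable :=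
    countable_iUnion fun q => hP (h0 * q.out)
  refine hc.mono ?_
  rintro x ⟨hxV, hxb, hxn⟩
  by_contra hcon
  apply hxn
  simp only [mem_iUnion, mem_setOf_eq, not_exists, not_and, not_not, not_forall] at hcon
  have h1 : ∀ q : K ⧸ K0, ∃ m, Am m (T (h0 * q.out)) x := by
    intro q
    have := hcon q hxb
    exact this
  choose N hN using h1
  have hfi := Fintype.ofFinite (K ⧸ K0)
  obtain ⟨δ, hδ, hb⟩ := Metric.eventually_nhds_iff_ball.1 (hV x hxV)
  obtain ⟨m0, hm0⟩ := exists_nat_one_div_lt hδ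
  refine ⟨max m0 (Finset.univ.sup N), fun k z hzB hzx => ?_⟩
  have hxB : x ∈ BB n := ball_subset_closedBall hxb
  obtain ⟨κ, hκ⟩ := QuotientGroup.mk_out_eq_mul K0 k
  have hk : k = (k : K ⧸ K0).out * (κ : K)⁻¹ := by
    rw [hκ]
    group
  have hκ' : (κ : K)⁻¹ ∈ K0 := K0.inv_mem κ.2
  have key : ∀ w, w ∈ BB n → w ∈ ball x δ → T (h0 * k) w = T (h0 * (k : K ⧸ K0).out) w := by
    intro w hw hwx
    have h3 := hb w hwx _ hκ'
    calc T (h0 * k) w = T ((h0 * (k : K ⧸ K0).out) * (κ : K)⁻¹) w := by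
          rw [mul_assoc, ← hk]
      _ = T (h0 * (k : K ⧸ K0).out) (T (κ : K)⁻¹ w) := hT.mul _ _ w hw (by rw [h3]; exact hw)
      _ = T (h0 * (k : K ⧸ K0).out) w := by rw [h3]
  have hz1 : z ∈ ball x δ := by
    rw [mem_ball]
    have := inv_anti (le_max_left m0 (Finset.univ.sup N))
    linarith
  rw [key z hzB hz1, key x hxB (mem_ball_self hδ)]
  have h4 : Am (max m0 (Finset.univ.sup N)) (T (h0 * (k : K ⧸ K0).out)) x :=
    (hN (k : K ⧸ K0)).mono
      ((Finset.le_sup (f := N) (Finset.mem_univ (k : K ⧸ K0))).trans (le_max_right _ _))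
  exact h4 z hzB hzx

/-- all points near which an open subgroup acts trivially -/
theorem triv_countable {n : ℕ} {K : Type} [Group K] [TopologicalSpace K] [IsTopologicalGroup K]
    [CompactSpace K] {T : K → E n → E n} (hT : LocAct n K T) (hP : ∀ k, HLoc (T k)) (h0 : K) :
    {x | x ∈ ball (0 : E n) 4 ∧ Triv T x ∧ ¬ ∃ m, ∀ k, Am m (T (h0 * k)) x}.Countable := by
  obtain ⟨W, hW⟩ : ∃ W : Set (E n), W = {x | x ∈ ball (0 : E n) 4 ∧ Triv T x} := ⟨_, rfl⟩
  have h1 : ∀ x : E n, ∃ (K0 : Subgroup K) (V : Set (E n)), IsOpen (K0 : Set K) ∧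
      (∀ z ∈ V, ∀ᶠ z in 𝓝 z, ∀ k ∈ K0, T k z = z) ∧ (x ∈ W → V ∈ 𝓝 x) := by
    intro x
    by_cases hx : x ∈ W
    · have hx' := hx
      rw [hW] at hx'
      obtain ⟨-, K0, hK0, hz⟩ := hx'
      exact ⟨K0, {z | ∀ᶠ z in 𝓝 z, ∀ k ∈ K0, T k z = z}, hK0, fun z hz => hz,
        fun _ => eventually_eventually_nhds.2 hz⟩
    · exact ⟨⊤, ∅, isOpen_univ, fun z hz => absurd hz (notMem_empty z), fun h => absurd h hx⟩
  choose K0 V hK0 hV hVW using h1
  obtain ⟨t, htW, htc, hcov⟩ := TopologicalSpace.countable_cover_nhdsWithin (f := V) (s := W)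
    (fun x hx => mem_nhdsWithin_of_mem_nhds (hVW x hx))
  refine (htc.biUnion fun x _ => am_of_triv hT hP h0 (hK0 x) (hV x)).mono ?_
  rintro x ⟨hxb, hxT, hxn⟩
  have hxW : x ∈ W := by
    rw [hW]
    exact ⟨hxb, hxT⟩
  obtain ⟨x0, hx0, hxV⟩ := mem_iUnion₂.1 (hcov hxW)
  exact mem_iUnion₂.2 ⟨x0, hx0, hxV, hxb, hxn⟩

end Pool.Agent.X201.HS
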