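import Pool.Agent.X201.HS.Av
import Pool.Agent.Y412.PH.BA1
import Pool.Agent.Y419.PH.BAA

/-! The Baire argument. -/

set_option autoImplicit false

open MeasureTheory Set Metric Filter Topology
open scoped ENNReal NNReal

noncomputable section

namespace Pool.Agent.X201.HS

open Pool.Agent.Y485.HS
open Pool.Agent.Y489.PH (Triv)

theorem ba {n : ℕ} (hn : 1 ≤ n) {H : Type} [Group H] [TopologicalSpace H] [IsTopologicalGroup H]
    [CompactSpace H] [T2Space H] [TotallyDisconnectedSpace H] {T : H → E n → E n}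
    (hT : LocAct n H T) (hP : ∀ h, HLoc (T h)) (hex : ∃ y ∈ ball (0 : E n) 1, ¬ Triv T y) :
    ∃ y ∈ ball (0 : E n) 1, ¬ Triv T y ∧ ∃ (ρ : ℝ) (h0 : H) (K : Subgroup H) (m : ℕ)
      (Z : Set (E n)), 0 < ρ ∧ ball y ρ ⊆ ball (0 : E n) 1 ∧ IsOpen (K : Set H) ∧ Z.Countable ∧
      ∀ x ∈ ball y ρ, x ∉ Z → Triv T x ∨ ∀ k ∈ K, Am m (T (h0 * k)) x := by
  set Q0 : Set (E n) := {x | x ∈ ball (0 : E n) 1 ∧ ¬ Triv T x} with hQ0
  have hlc : IsLocallyClosed Q0 := by
    have h1 : IsLocallyClosed (ball (0 : E n) 1) := isOpen_ball.isLocallyClosed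
    have h2 : IsLocallyClosed {x : E n | ¬ Triv T x} := by
      apply IsClosed.isLocallyClosed
      exact (Pool.Agent.Y412.PH.isOpen_triv T).isClosed_compl
    exact h1.inter h2
  have hl : LocallyCompactSpace Q0 := hlc.locallyCompactSpace
  obtain ⟨y0, hy0, hy0'⟩ := hex
  have hne : Nonempty Q0 := ⟨⟨y0, hy0, hy0'⟩⟩
  have hsub : ∀ q : Q0, (q : E n) ∈ BB n := by
    intro q
    have := q.2.1
    rw [mem_ball_zero_iff] at this
    rw [mem_BB]
    linarith
  set A : ℕ → Set (H × Q0) := fun m => {p | Am m (T p.1) (p.2 : E n)} with hA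
  have hAc : ∀ m, IsClosed (A m) := by
    intro m
    have hcT : Continuous (fun p : H × Q0 => T p.1 (p.2 : E n)) := by
      have hc : Continuous (fun p : H × Q0 => (p.1, (p.2 : E n))) := by fun_prop
      exact hT.cont.comp_continuous hc (fun p => ⟨mem_univ _, hsub p.2⟩)
    have hrw : A m = ⋂ z ∈ BB n, ({p : H × Q0 | 1 / ((m : ℝ) + 1) ≤ dist z (p.2 : E n)} ∪
        {p : H × Q0 | dist (T p.1 z) (T p.1 (p.2 : E n)) ≤ m * dist z (p.2 : E n) ^ ex n m}) := by
      ext p
      simp only [hA, mem_iInter, mem_union]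
      refine forall₂_congr fun z _ => ?_
      constructor
      · intro h
        rcases le_or_gt (1 / ((m : ℝ) + 1)) (dist z (p.2 : E n)) with h1 | h1
        · exact Or.inl h1
        · exact Or.inr (h h1)
      · rintro (h | h) h1
        · exact absurd h1 (not_lt.2 h)
        · exact h
    rw [hrw]
    refine isClosed_biInter fun z hz => ?_
    have h1 : Continuous (fun p : H × Q0 => T p.1 z) := (hT.cont_left hz).comp continuous_fst
    have h2 : Continuous (fun p : H × Q0 => dist z (p.2 : E n)) := by fun_prop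
    have h3 : Continuous (fun p : H × Q0 => (m : ℝ) * dist z (p.2 : E n) ^ ex n m) :=
      continuous_const.mul (h2.rpow_const fun _ => Or.inr (ex_pos hn m).le)
    exact IsClosed.union (isClosed_le continuous_const h2) (isClosed_le (h1.dist hcT) h3)
  have hcount : ∀ h : H, {q : Q0 | ∀ m, (h, q) ∉ A m}.Countable := by
    intro h
    refine ((hP h).preimage (Subtype.val_injective : Function.Injective
      (Subtype.val : Q0 → E n))).mono ?_
    intro q hq
    refine ⟨?_, ?_⟩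
    · have := q.2.1
      rw [mem_ball_zero_iff] at this ⊢
      linarith
    · rintro ⟨m, hm⟩
      exact hq m hm
  rcases Pool.Agent.Y419.PH.t_BAA H Q0 A hAc hcount with ⟨q, hq⟩ |
    ⟨m, V, W, hV, ⟨h0, hh0⟩, hW, ⟨q, hq⟩, hVW⟩
  · obtain ⟨O, hO, hOq⟩ := isOpen_induced_iff.1 hq
    have hqO : (q : E n) ∈ O ∩ ball (0 : E n) 1 := by
      refine ⟨?_, q.2.1⟩
      have : q ∈ Subtype.val ⁻¹' O := by rw [hOq]; exact mem_singleton q
      exact this
    obtain ⟨ρ, hρ, hρs⟩ := Metric.isOpen_iff.1 (hO.inter isOpen_ball) _ hqO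
    refine ⟨q, q.2.1, q.2.2, ρ, 1, ⊤, 0, {(q : E n)}, hρ, fun x hx => (hρs hx).2, isOpen_univ,
      countable_singleton _, ?_⟩
    intro x hx hxq
    left
    by_contra hxt
    have h1 : (⟨x, (hρs hx).2, hxt⟩ : Q0) ∈ Subtype.val ⁻¹' O := (hρs hx).1
    rw [hOq] at h1
    apply hxq
    have h2 := mem_singleton_iff.1 h1
    exact congrArg Subtype.val h2
  · obtain ⟨O, hO, hOq⟩ := isOpen_induced_iff.1 hW
    have hqO : (q : E n) ∈ O ∩ ball (0 : E n) 1 := by
      refine ⟨?_, q.2.1⟩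
      have : q ∈ Subtype.val ⁻¹' O := by rw [hOq]; exact hq
      exact this
    obtain ⟨ρ, hρ, hρs⟩ := Metric.isOpen_iff.1 (hO.inter isOpen_ball) _ hqO
    have hopen : IsOpen ((fun k => h0 * k) ⁻¹' V) := hV.preimage (continuous_const_mul h0)
    obtain ⟨K, hK⟩ := ProfiniteGrp.exist_openNormalSubgroup_sub_open_nhds_of_one hopen
      (by change h0 * 1 ∈ V; rw [mul_one]; exact hh0)
    refine ⟨q, q.2.1, q.2.2, ρ, h0, K.toSubgroup, m, ∅, hρ, fun x hx => (hρs hx).2,
      K.toOpenSubgroup.isOpen, countable_empty, ?_⟩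
    intro x hx _
    by_cases hxt : Triv T x
    · exact Or.inl hxt
    · right
      intro k hk
      have h1 : (⟨x, (hρs hx).2, hxt⟩ : Q0) ∈ W := by
        rw [← hOq]
        exact (hρs hx).1
      have h2 : h0 * k ∈ V := hK hk
      have h3 : (h0 * k, (⟨x, (hρs hx).2, hxt⟩ : Q0)) ∈ A m := hVW ⟨h2, h1⟩
      exact h3

end Pool.Agent.X201.HS
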