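import Pool.Agent.Y489.SP.Stm
import Pool.Agent.Y485.HS.Loc

/-!
Pointwise Hölder maps with exponents larger than `(n - 1) / n`: images of hyperplanes are null sets.
-/

set_option autoImplicit false

open MeasureTheory Set Metric Filter Topology
open scoped ENNReal NNReal

namespace Pool.Agent.X201.HS

open Pool.Agent.Y485.HS

/-- the exponent `(n - 1) / n + 1 / (m + 1)` -/
noncomputable def ex (n m : ℕ) : ℝ := ((n : ℝ) - 1) / n + 1 / ((m : ℝ) + 1)

theorem ex_pos {n : ℕ} (hn : 1 ≤ n) (m : ℕ) : 0 < ex n m := by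
  have h1 : (1 : ℝ) ≤ n := by exact_mod_cast hn
  have h2 : 0 ≤ ((n : ℝ) - 1) / n := div_nonneg (by linarith) (by linarith)
  have h3 : (0 : ℝ) < 1 / ((m : ℝ) + 1) := by positivity
  unfold ex
  linarith

theorem inv_anti {m m' : ℕ} (h : m ≤ m') : (1 : ℝ) / ((m' : ℝ) + 1) ≤ 1 / ((m : ℝ) + 1) := by
  apply one_div_le_one_div_of_le (by positivity)
  have : (m : ℝ) ≤ m' := by exact_mod_cast h
  linarith

theorem inv_le_one (m : ℕ) : (1 : ℝ) / ((m : ℝ) + 1) ≤ 1 := by
  rw [div_le_one (by positivity)]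
  have : (0 : ℝ) ≤ m := Nat.cast_nonneg m
  linarith

theorem ex_anti (n : ℕ) {m m' : ℕ} (h : m ≤ m') : ex n m' ≤ ex n m := by
  unfold ex
  linarith [inv_anti h]

/-- `u` is Hölder at `x` with the constants given by `m` -/
def Am {n : ℕ} (m : ℕ) (u : E n → E n) (x : E n) : Prop :=
  ∀ z ∈ BB n, dist z x < 1 / ((m : ℝ) + 1) → dist (u z) (u x) ≤ m * dist z x ^ ex n m

theorem Am.mono {n : ℕ} {m m' : ℕ} (h : m ≤ m') {u : E n → E n} {x : E n} (hu : Am m u x) :
    Am m' u x := by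
  intro z hz hd
  have hd1 : dist z x < 1 / ((m : ℝ) + 1) := lt_of_lt_of_le hd (inv_anti h)
  have h2 := hu z hz hd1
  have h3 : dist z x ≤ 1 := hd1.le.trans (inv_le_one m)
  have hmm : (m : ℝ) ≤ m' := by exact_mod_cast h
  have hm0 : (0 : ℝ) ≤ m := Nat.cast_nonneg m
  rcases eq_or_lt_of_le (dist_nonneg : 0 ≤ dist z x) with h0 | h0
  · have hzx : z = x := dist_eq_zero.1 h0.symm
    rw [hzx, dist_self]
    positivity
  · calc dist (u z) (u x) ≤ m * dist z x ^ ex n m := h2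
      _ ≤ m' * dist z x ^ ex n m' := by
        have h4 := Real.rpow_le_rpow_of_exponent_ge h0 h3 (ex_anti n h)
        exact mul_le_mul hmm h4 (by positivity) (by linarith)

/-- from real constants -/
theorem am_of_real {n : ℕ} {u : E n → E n} {x : E n} {N δ α : ℝ} (hδ : 0 < δ)
    (hα : ((n : ℝ) - 1) / n < α)
    (h : ∀ z ∈ BB n, dist z x < δ → dist (u z) (u x) ≤ N * dist z x ^ α) : ∃ m : ℕ, Am m u x := by
  obtain ⟨m1, hm1⟩ := exists_nat_ge N
  obtain ⟨m2, hm2⟩ := exists_nat_one_div_lt hδ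
  obtain ⟨m3, hm3⟩ := exists_nat_one_div_lt (sub_pos.2 hα)
  refine ⟨max m1 (max m2 m3), fun z hz hd => ?_⟩
  set m := max m1 (max m2 m3) with hm
  have e1 : m1 ≤ m := le_max_left _ _
  have e2 : m2 ≤ m := (le_max_left _ _).trans (le_max_right _ _)
  have e3 : m3 ≤ m := (le_max_right _ _).trans (le_max_right _ _)
  have h1 : dist z x < δ := by linarith [inv_anti e2]
  have h2 := h z hz h1
  have h3 : dist z x ≤ 1 := hd.le.trans (inv_le_one m)
  have h4 : ex n m ≤ α := by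
    unfold ex
    linarith [inv_anti e3]
  have h5 : N ≤ (m : ℝ) := hm1.trans (by exact_mod_cast e1)
  rcases eq_or_lt_of_le (dist_nonneg : 0 ≤ dist z x) with h0 | h0
  · have hzx : z = x := dist_eq_zero.1 h0.symm
    rw [hzx, dist_self]
    positivity
  · calc dist (u z) (u x) ≤ N * dist z x ^ α := h2
      _ ≤ m * dist z x ^ α := mul_le_mul_of_nonneg_right h5 (by positivity)
      _ ≤ m * dist z x ^ ex n m :=
        mul_le_mul_of_nonneg_left (Real.rpow_le_rpow_of_exponent_ge h0 h3 h4) (Nat.cast_nonneg m)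

/-- hyperplanes have small dimension -/
theorem dimH_hyper {n : ℕ} (hn : 1 ≤ n) (i : Fin n) (t : ℝ) :
    dimH {x : E n | x i = t} ≤ ((n - 1 : ℕ) : ℝ≥0∞) := by
  classical
  let f : E n →ₗ[ℝ] ℝ :=
    { toFun := fun x => x i
      map_add' := fun x y => rfl
      map_smul' := fun c x => rfl }
  let W : Submodule ℝ (E n) := LinearMap.ker f
  have hf : LinearMap.range f = ⊤ := by
    rw [LinearMap.range_eq_top]
    intro r
    refine ⟨EuclideanSpace.single i r, ?_⟩
    show (EuclideanSpace.single i r : E n) i = r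
    simp
  have hW : Module.finrank ℝ W = n - 1 := by
    have h1 := LinearMap.finrank_range_add_finrank_ker f
    rw [hf, finrank_top, Module.finrank_self, finrank_euclideanSpace_fin] at h1
    have h2 : Module.finrank ℝ (LinearMap.ker f) = Module.finrank ℝ W := rfl
    omega
  let φ : W → E n := fun w => (w : E n) + EuclideanSpace.single i t
  have hφ : LipschitzWith 1 φ := by
    refine LipschitzWith.of_dist_le_mul fun a b => ?_
    rw [NNReal.coe_one, one_mul]
    show dist ((a : E n) + _) ((b : E n) + _) ≤ _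
    rw [dist_add_right]
    exact le_rfl
  have hsub : {x : E n | x i = t} ⊆ φ '' univ := by
    intro x hx
    refine ⟨⟨x - EuclideanSpace.single i t, ?_⟩, mem_univ _, ?_⟩
    · show (x - EuclideanSpace.single i t : E n) i = 0
      have hx' : x i = t := hx
      simp [hx']
    · show x - EuclideanSpace.single i t + EuclideanSpace.single i t = x
      abel
  calc dimH {x : E n | x i = t} ≤ dimH (φ '' univ) := dimH_mono hsub
    _ ≤ dimH (univ : Set W) := hφ.dimH_image_le _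
    _ = ((n - 1 : ℕ) : ℝ≥0∞) := by rw [Real.dimH_univ_eq_finrank W, hW]

/-- images of hyperplanes are null sets -/
theorem slice_null {n : ℕ} (hn : 1 ≤ n) (F : E n → E n) (S : Set (E n)) (hS : S ⊆ BB n)
    (Z : Set (E n)) (hZ : Z.Countable) (hA : ∀ x ∈ S, x ∉ Z → ∃ m, Am m F x) (i : Fin n) (t : ℝ) :
    volume (F '' {x | x ∈ S ∧ x i = t}) = 0 := by
  classical
  have hne : Nonempty (Fin n) := ⟨i⟩
  have hntr : Nontrivial (E n) := by
    have : Nontrivial (EuclideanSpace ℝ (Fin n)) := inferInstance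
    exact this
  obtain ⟨q, hq⟩ := TopologicalSpace.exists_dense_seq (E n)
  let P : ℕ → ℕ → Set (E n) := fun m j =>
    {x | x ∈ S ∧ x i = t ∧ Am m F x ∧ x ∈ ball (q j) (1 / (2 * ((m : ℝ) + 1)))}
  have hsub : F '' {x | x ∈ S ∧ x i = t} ⊆ F '' Z ∪ ⋃ m, ⋃ j, F '' P m j := by
    rintro _ ⟨x, ⟨hxS, hxt⟩, rfl⟩
    by_cases hxZ : x ∈ Z
    · exact Or.inl ⟨x, hxZ, rfl⟩
    · right
      obtain ⟨m, hm⟩ := hA x hxS hxZ
      obtain ⟨j, hj⟩ := hq.exists_dist_lt x
        (show (0 : ℝ) < 1 / (2 * ((m : ℝ) + 1)) by positivity)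
      exact mem_iUnion.2 ⟨m, mem_iUnion.2 ⟨j, x, ⟨hxS, hxt, hm, mem_ball.2 hj⟩, rfl⟩⟩
  refine measure_mono_null hsub (measure_union_null ((hZ.image F).measure_zero volume) ?_)
  refine measure_iUnion_null fun m => measure_iUnion_null fun j => ?_
  -- one piece
  let r : ℝ≥0 := ⟨ex n m, (ex_pos hn m).le⟩
  have hr : 0 < r := ex_pos hn m
  have hH : HolderOnWith (m : ℝ≥0) r F (P m j) := by
    intro x hx z hz
    have h1 : dist x z < 1 / ((m : ℝ) + 1) := by
      have h2 := mem_ball.1 hx.2.2.2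
      have h3 := mem_ball.1 hz.2.2.2
      have h4 := dist_triangle_right x z (q j)
      have h5 : 1 / (2 * ((m : ℝ) + 1)) + 1 / (2 * ((m : ℝ) + 1)) = 1 / ((m : ℝ) + 1) := by
        field_simp
        norm_num
      linarith
    have h2 := hz.2.2.1 x (hS hx.1) h1
    have hre : ((r : ℝ≥0) : ℝ) = ex n m := rfl
    rw [edist_dist, edist_dist, hre, ENNReal.ofReal_rpow_of_nonneg dist_nonneg (ex_pos hn m).le]
    have h3 : ((m : ℝ≥0) : ℝ≥0∞) = ENNReal.ofReal (m : ℝ) := by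
      rw [ENNReal.ofReal_natCast]
      simp
    rw [h3, ← ENNReal.ofReal_mul (Nat.cast_nonneg m)]
    exact ENNReal.ofReal_le_ofReal h2
  have h1 := hH.hausdorffMeasure_image_le hr (d := (n : ℝ)) (Nat.cast_nonneg n)
  have hlt : dimH (P m j) < ((r * n : ℝ≥0) : ℝ≥0∞) := by
    have h2 : dimH (P m j) ≤ ((n - 1 : ℕ) : ℝ≥0∞) :=
      (dimH_mono fun x hx => hx.2.1).trans (dimH_hyper hn i t)
    refine lt_of_le_of_lt h2 ?_
    have h3 : (((n - 1 : ℕ) : ℝ≥0) : ℝ≥0∞) = ((n - 1 : ℕ) : ℝ≥0∞) := by simp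
    rw [← h3, ENNReal.coe_lt_coe, ← NNReal.coe_lt_coe]
    have h4 : ((n - 1 : ℕ) : ℝ) = (n : ℝ) - 1 := by
      rw [Nat.cast_sub hn, Nat.cast_one]
    have hn' : (0 : ℝ) < n := by exact_mod_cast hn
    rw [NNReal.coe_natCast, NNReal.coe_mul, NNReal.coe_natCast, h4]
    show (n : ℝ) - 1 < ex n m * n
    unfold ex
    have h5 : (((n : ℝ) - 1) / n + 1 / ((m : ℝ) + 1)) * n = (n : ℝ) - 1 + n / ((m : ℝ) + 1) := by
      field_simp
    rw [h5]
    have : (0 : ℝ) < n / ((m : ℝ) + 1) := by positivity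
    linarith
  have h2 : μH[((r * n : ℝ≥0) : ℝ)] (P m j) = 0 := hausdorffMeasure_of_dimH_lt hlt
  have h3 : ((r * n : ℝ≥0) : ℝ) = (r : ℝ) * (n : ℝ) := by push_cast; rfl
  rw [h3] at h2
  rw [h2, mul_zero] at h1
  have h4 : μH[(n : ℝ)] (F '' P m j) = 0 := le_antisymm h1 zero_le
  have h5 : (volume : Measure (E n)) ≪ μH[(n : ℝ)] := by
    have h6 : (Module.finrank ℝ (E n) : ℝ) = n := by rw [finrank_euclideanSpace_fin]
    rw [← h6]
    exact Measure.absolutelyContinuous_isAddHaarMeasure _ _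
  exact h5 h4

end Pool.Agent.X201.HS
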