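import Pool.Agent.X201.HS.Ba
import Pool.Agent.Y143.PH.LOC2
import Pool.Agent.Y523.PH.RES
import Pool.Agent.Y340.SP.POW

/-! The local theorem for profinite groups. -/

set_option autoImplicit false

open MeasureTheory Set Metric Filter Topology
open scoped ENNReal NNReal

noncomputable section

namespace Pool.Agent.X201.HS

open Pool.Agent.Y485.HS Pool.Agent.Y489.SP
open Pool.Agent.Y489.PH (Triv)
open Pool.Agent.Y143.PH Pool.Agent.Y523.PH

/-- rescaling -/
theorem resc {n : ℕ} {H : Type} [Group H] [TopologicalSpace H] [IsTopologicalGroup H]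
    [CompactSpace H] [T2Space H] [TotallyDisconnectedSpace H] {T : H → E n → E n}
    (hT : LocAct n H T) {y : E n} (hy : y ∈ ball (0 : E n) 2) {K : Subgroup H}
    (hK : IsOpen (K : Set H)) {r : ℝ} (hr0 : 0 < r) (hr1 : r ≤ 1) :
    ∃ K' : Subgroup H, IsOpen (K' : Set H) ∧ K' ≤ K ∧
      LocAct n K' (fun (k : K') (v : E n) => (4 / r) • (T (k : H) (Af y r v) - y)) := by
  have hy2 : ‖y‖ < 2 := by simpa using hy
  have hε : 0 < r / 16 := by positivity
  obtain ⟨V, hVs, hVo, hV1⟩ := _root_.mem_nhds_iff.1 (small_nhds hT hε)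
  obtain ⟨N, hN⟩ := ProfiniteGrp.exist_openNormalSubgroup_sub_open_nhds_of_one hVo hV1
  refine ⟨K ⊓ N.toSubgroup, ?_, inf_le_left, ?_⟩
  · rw [Subgroup.coe_inf]
    exact hK.inter N.isOpen'
  have hsm : ∀ k : (K ⊓ N.toSubgroup : Subgroup H), ∀ w ∈ BB n,
      dist (T (k : H) w) w < r / 16 := by
    intro k w hw
    exact hVs (hN k.2.2) w hw
  have hw : ∀ v ∈ BB n, Af y r v ∈ BB n := by
    intro v hv
    have := Af_norm hr0 hr1 hy (mem_BB.1 hv)
    exact mem_BB.2 (by linarith)
  have hback : ∀ (k : H) (v : E n),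
      Af y r ((4 / r) • (T k (Af y r v) - y)) = T k (Af y r v) := fun k v => Af_surj hr0 _
  refine ⟨?_, ?_, ?_, ?_⟩
  · have h1 : ContinuousOn (fun q : (K ⊓ N.toSubgroup : Subgroup H) × E n =>
        T (q.1 : H) (Af y r q.2)) (univ ×ˢ BB n) := by
      have hA : Continuous (Af y r) := Af_cont
      have hc : Continuous (fun q : (K ⊓ N.toSubgroup : Subgroup H) × E n =>
          ((q.1 : H), Af y r q.2)) := by fun_prop
      refine hT.cont.comp hc.continuousOn ?_
      rintro ⟨k, v⟩ ⟨-, hv⟩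
      exact ⟨mem_univ _, hw v hv⟩
    exact (h1.sub continuousOn_const).const_smul (4 / r)
  · intro v hv
    show (4 / r) • (T (1 : H) (Af y r v) - y) = v
    rw [hT.one _ (hw v hv), resc_Af hr0]
  · intro h k v hv hkv
    show (4 / r) • (T ((h : H) * (k : H)) (Af y r v) - y) = (4 / r) • (T (h : H)
      (Af y r ((4 / r) • (T (k : H) (Af y r v) - y))) - y)
    have h2 := hw _ hkv
    rw [hback] at h2
    rw [hback, hT.mul _ _ _ (hw v hv) h2]
  · intro k v hv
    have h1 := hsm k _ (hw v hv)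
    show dist ((4 / r) • (T (k : H) (Af y r v) - y)) v ≤ 1 / 4
    have h2 : dist ((4 / r) • (T (k : H) (Af y r v) - y)) v =
        4 / r * dist (T (k : H) (Af y r v)) (Af y r v) := by
      conv_lhs => rw [← resc_Af (y := y) hr0 v]
      rw [resc_dist hr0, Af_surj hr0]
    rw [h2]
    calc 4 / r * dist (T (k : H) (Af y r v)) (Af y r v) ≤ 4 / r * (r / 16) := by
          gcongr
      _ = 1 / 4 := by field_simp; norm_num

theorem BB_nhds' {n : ℕ} {x : E n} (hx : ‖x‖ < 4) : BB n ∈ 𝓝 x := by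
  refine mem_of_superset (isOpen_ball.mem_nhds (mem_ball_zero_iff.2 hx)) ?_
  exact ball_subset_closedBall

/-- **the local theorem** -/
theorem loc (hPART : S_PART) (hDEGP : S_DEGP) (hSYL : Pool.Agent.Y485.HS.S_SYL) {n : ℕ}
    (hn : 1 ≤ n) {H : Type} [Group H] [TopologicalSpace H] [IsTopologicalGroup H]
    [CompactSpace H] [T2Space H] [TotallyDisconnectedSpace H] {T : H → E n → E n}
    (hT : LocAct n H T) (hP : ∀ h, HLoc (T h)) : ∀ y ∈ ball (0 : E n) 1, Triv T y := by
  intro y0 hy0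
  by_contra hcon
  obtain ⟨y, hy1, hyT, ρ, h0, K, m, Z, hρ, hρ1, hKo, hZ, hKZ⟩ := ba hn hT hP ⟨y0, hy0, hcon⟩
  have hy1' : ‖y‖ < 1 := by simpa using hy1
  have hy : y ∈ ball (0 : E n) 2 := ball_subset_ball (by norm_num) hy1
  set r : ℝ := min ρ 1 with hr
  have hr0 : 0 < r := lt_min hρ one_pos
  have hr1 : r ≤ 1 := min_le_right _ _
  have hrρ : r ≤ ρ := min_le_left _ _
  have hAB : ∀ v ∈ BB n, Af y r v ∈ BB n := by
    intro v hv
    have := Af_norm hr0 hr1 hy (mem_BB.1 hv)
    exact mem_BB.2 (by linarith)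
  have hAn : ∀ v ∈ BB n, ‖Af y r v‖ ≤ 2 := by
    intro v hv
    have h1 := Af_dist_center (y := y) hr0 v
    rw [dist_eq_norm] at h1
    have h2 : r / 4 * ‖v‖ ≤ 1 := by
      have := mem_BB.1 hv
      nlinarith [norm_nonneg v]
    calc ‖Af y r v‖ = ‖(Af y r v - y) + y‖ := by congr 1; abel
      _ ≤ ‖Af y r v - y‖ + ‖y‖ := norm_add_le _ _
      _ ≤ 2 := by linarith
  have hTn : ∀ h : H, ∀ v ∈ BB n, ‖T h (Af y r v)‖ ≤ 9 / 4 := by
    intro h v hv
    have h1 := norm_T_le hT h (hAB v hv)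
    have h2 := hAn v hv
    linarith
  -- uniform continuity of the inverse of `T h0`
  obtain ⟨η, hη0, hη1, hη⟩ : ∃ η : ℝ, 0 < η ∧ η ≤ 1 / 2 ∧ ∀ v ∈ BB n, ∀ a : E n,
      dist a (T h0 (Af y r v)) ≤ η → dist (T h0⁻¹ a) (Af y r v) ≤ r / 16 := by
    have huc : UniformContinuousOn (T h0⁻¹) (closedBall (0 : E n) 3) :=
      (isCompact_closedBall (0 : E n) 3).uniformContinuousOn_of_continuous
        ((hT.cont_right h0⁻¹).mono (closedBall_subset_closedBall (by norm_num)))
    obtain ⟨δ, hδ, hδu⟩ := Metric.uniformContinuousOn_iff.1 huc (r / 16) (by positivity)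
    refine ⟨min (δ / 2) (1 / 2), lt_min (by positivity) (by norm_num), min_le_right _ _, ?_⟩
    intro v hv a ha
    have h1 : dist a (T h0 (Af y r v)) < δ := by
      have := ha.trans (min_le_left _ _)
      linarith
    have h2 : dist a (T h0 (Af y r v)) ≤ 1 / 2 := ha.trans (min_le_right _ _)
    have h3 := hTn h0 v hv
    have h4 : a ∈ closedBall (0 : E n) 3 := by
      rw [mem_closedBall, dist_zero_right]
      calc ‖a‖ = ‖(a - T h0 (Af y r v)) + T h0 (Af y r v)‖ := by congr 1; abel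
        _ ≤ ‖a - T h0 (Af y r v)‖ + ‖T h0 (Af y r v)‖ := norm_add_le _ _
        _ ≤ 3 := by rw [← dist_eq_norm]; linarith
    have h5 : T h0 (Af y r v) ∈ closedBall (0 : E n) 3 := by
      rw [mem_closedBall, dist_zero_right]
      linarith
    have h6 := hδu a h4 _ h5 h1
    rw [hT.inv h0 (hAB v hv) (mem_BB.2 (by linarith))] at h6
    exact h6.le
  -- the subgroup
  obtain ⟨K1, hK1o, hK1K, hK1⟩ : ∃ K1 : Subgroup H, IsOpen (K1 : Set H) ∧ K1 ≤ K ∧
      ∀ k ∈ K1, ∀ x ∈ BB n, ‖x‖ ≤ 2 → dist (T (h0 * k) x) (T h0 x) ≤ η := by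
    have huc : UniformContinuousOn (T h0) (closedBall (0 : E n) 3) :=
      (isCompact_closedBall (0 : E n) 3).uniformContinuousOn_of_continuous
        ((hT.cont_right h0).mono (closedBall_subset_closedBall (by norm_num)))
    obtain ⟨δ, hδ, hδu⟩ := Metric.uniformContinuousOn_iff.1 huc η hη0
    obtain ⟨V, hVs, hVo, hV1⟩ := _root_.mem_nhds_iff.1 (small_nhds hT hδ)
    obtain ⟨N, hN⟩ := ProfiniteGrp.exist_openNormalSubgroup_sub_open_nhds_of_one hVo hV1
    refine ⟨K ⊓ N.toSubgroup, ?_, inf_le_left, ?_⟩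
    · rw [Subgroup.coe_inf]
      exact hKo.inter N.isOpen'
    · intro k hk x hx hx2
      have h1 : dist (T k x) x < δ := hVs (hN hk.2) x hx
      have h2 := norm_T_le hT k hx
      have h3 : T k x ∈ closedBall (0 : E n) 3 := by
        rw [mem_closedBall, dist_zero_right]
        linarith
      have h4 : x ∈ closedBall (0 : E n) 3 := by
        rw [mem_closedBall, dist_zero_right]
        linarith
      rw [hT.mul h0 k x hx (mem_BB.2 (by linarith))]
      exact (hδu _ h3 _ h4 h1).le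
  obtain ⟨K', hK'o, hK'K1, hT'⟩ := resc hT hy hK1o hr0 hr1
  have hK'c : IsClosed (K' : Set H) := Subgroup.isClosed_of_isOpen K' hK'o
  have : CompactSpace K' := isCompact_iff_compactSpace.1 hK'c.isCompact
  set T' : K' → E n → E n := fun (k : K') (v : E n) => (4 / r) • (T (k : H) (Af y r v) - y)
    with hT'def
  have hAT' : ∀ (k : K') (v : E n), Af y r (T' k v) = T (k : H) (Af y r v) :=
    fun k v => Af_surj hr0 _
  -- the countable exceptional set
  let Z1 : Set (E n) := Z ∪ {x | x ∈ ball (0 : E n) 4 ∧ Triv T x ∧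
    ¬ ∃ m, ∀ k, Am m (T (h0 * k)) x}
  have hZ1 : Z1.Countable := hZ.union (triv_countable hT hP h0)
  have hunif : ∀ v ∈ closedBall (0 : E n) 3, Af y r v ∉ Z1 →
      ∃ m, ∀ k ∈ K', Am m (T (h0 * k)) (Af y r v) := by
    intro v hv hvZ
    have hv3 : ‖v‖ ≤ 3 := by simpa using hv
    have hvB : v ∈ BB n := mem_BB.2 (by linarith)
    have h1 : Af y r v ∈ ball y ρ := by
      rw [mem_ball, Af_dist_center hr0]
      have : r / 4 * ‖v‖ ≤ r / 4 * 3 := mul_le_mul_of_nonneg_left hv3 (by positivity)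
      linarith
    rcases hKZ _ h1 (fun h => hvZ (Or.inl h)) with h | h
    · by_contra hcon2
      apply hvZ
      refine Or.inr ⟨?_, h, fun ⟨m', hm'⟩ => hcon2 ⟨m', fun k _ => hm' k⟩⟩
      have := hAn v hvB
      rw [mem_ball_zero_iff]
      linarith
    · exact ⟨m, fun k hk => h k (hK1K (hK'K1 hk))⟩
  -- one element of a pro-`p` group
  have key : ∀ p : ℕ, p.Prime → ∀ k : K', Tendsto (fun j : ℕ => k ^ p ^ j) atTop (𝓝 1) →
      ∀ v ∈ ball (0 : E n) 1, T' k v = v := by
    intro p hp k hkp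
    obtain ⟨F, hFc, hFi, hFf, hFη, hFA⟩ := exists_av hT h0 (k : H)
    have hcl : (Subgroup.zpowers (k : H)).topologicalClosure ≤ K' :=
      Subgroup.topologicalClosure_minimal _ ((Subgroup.zpowers_le).2 k.2) hK'c
    have hFd : ∀ v ∈ BB n, dist (F (Af y r v)) (T h0 (Af y r v)) ≤ η := fun v hv =>
      hFη _ (hAB v hv) η fun k' hk' => hK1 k' (hK'K1 (hcl hk')) _ (hAB v hv) (hAn v hv)
    have hFn : ∀ v ∈ BB n, ‖F (Af y r v)‖ < 3 := by
      intro v hv
      have h1 := hFd v hv
      have h2 := hTn h0 v hv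
      calc ‖F (Af y r v)‖ = ‖(F (Af y r v) - T h0 (Af y r v)) + T h0 (Af y r v)‖ := by
            congr 1; abel
        _ ≤ ‖F (Af y r v) - T h0 (Af y r v)‖ + ‖T h0 (Af y r v)‖ := norm_add_le _ _
        _ < 3 := by rw [← dist_eq_norm]; linarith
    have hFA' : ContinuousOn (fun v => F (Af y r v)) (BB n) :=
      hFc.comp (Af_cont (y := y) (r := r)).continuousOn (fun v hv => hAB v hv)
    refine locd hPART hDEGP hp hn hT' k hkp
      (fun v => (4 / r) • (T h0⁻¹ (F (Af y r v)) - y)) ?_ ?_ ?_ ?_ ?_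
    · have h1 : ContinuousOn (fun v => T h0⁻¹ (F (Af y r v))) (BB n) := by
        refine (hT.cont_right h0⁻¹).comp hFA' ?_
        intro v hv
        have := hFn v hv
        exact mem_BB.2 (by linarith)
      exact (h1.sub continuousOn_const).const_smul (4 / r)
    · intro v hv
      have h1 := hη v hv _ (hFd v hv)
      have h2 : dist ((4 / r) • (T h0⁻¹ (F (Af y r v)) - y)) v =
          4 / r * dist (T h0⁻¹ (F (Af y r v))) (Af y r v) := by
        conv_lhs => rw [← resc_Af (y := y) hr0 v]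
        rw [resc_dist hr0, Af_surj hr0]
      rw [h2]
      calc 4 / r * dist (T h0⁻¹ (F (Af y r v))) (Af y r v) ≤ 4 / r * (r / 16) := by
            gcongr
        _ = 1 / 4 := by field_simp; norm_num
    · intro v hv _
      show (4 / r) • (T h0⁻¹ (F (Af y r (T' k v))) - y) = _
      have h1 := hTn (k : H) v hv
      rw [hAT', hFi _ (hAB v hv) (mem_BB.2 (by linarith))]
    · intro v hv hfix
      have h1 : T (k : H) (Af y r v) = Af y r v := by
        rw [← hAT', hfix]
      have h2 := hTn h0 v hv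
      show (4 / r) • (T h0⁻¹ (F (Af y r v)) - y) = v
      rw [hFf _ (hAB v hv) h1, hT.inv h0 (hAB v hv) (mem_BB.2 (by linarith)), resc_Af hr0]
    · intro w hw ε hε
      have hw1 : ‖w‖ < 1 := by simpa using hw
      have hwB : w ∈ BB n := mem_BB.2 (by linarith)
      have hAm : ∀ x ∈ closedBall (0 : E n) 3, x ∉ Af y r ⁻¹' Z1 →
          ∃ m, Am m (fun v => F (Af y r v)) x := by
        intro v hv hvZ
        have hv3 : ‖v‖ ≤ 3 := by simpa using hv
        have hvB : v ∈ BB n := mem_BB.2 (by linarith)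
        obtain ⟨m', hm'⟩ := hunif v hv hvZ
        have h1 : Am m' F (Af y r v) := hFA m' _ (hAB v hvB) fun k' hk' => hm' k' (hcl hk')
        refine ⟨m', fun z hz hzv => ?_⟩
        have h2 : dist (Af y r z) (Af y r v) = r / 4 * dist z v := Af_dist hr0 z v
        have h3 : r / 4 * dist z v ≤ dist z v := by
          nlinarith [dist_nonneg (x := z) (y := v)]
        have h4 := h1 _ (hAB z hz) (by rw [h2]; linarith)
        rw [h2] at h4
        refine h4.trans (mul_le_mul_of_nonneg_left ?_ (Nat.cast_nonneg m'))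
        exact Real.rpow_le_rpow (by positivity) h3 (ex_pos hn m').le
      let a0 : E n := T h0 (Af y r w)
      have ha0n : ‖a0‖ ≤ 9 / 4 := hTn h0 w hwB
      have ha0i : T h0⁻¹ a0 = Af y r w := hT.inv h0 (hAB w hwB) (mem_BB.2 (by linarith))
      have hca : ContinuousAt (T h0⁻¹) a0 :=
        (hT.cont_right h0⁻¹).continuousAt (BB_nhds' (by linarith))
      have hcb : ContinuousAt (fun a => (4 / r) • (T h0⁻¹ a - y)) a0 :=
        (hca.sub continuousAt_const).const_smul (4 / r)
      have hval : (4 / r) • (T h0⁻¹ a0 - y) = w := by rw [ha0i, resc_Af hr0]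
      have hε' : 0 < min ε (1 - ‖w‖) := lt_min hε (by linarith)
      let V : Set (E n) := {a | ‖a‖ < 3 ∧ dist ((4 / r) • (T h0⁻¹ a - y)) w < min ε (1 - ‖w‖)}
      have hV : V ∈ 𝓝 a0 := by
        have h1 : ∀ᶠ a in 𝓝 a0, ‖a‖ < 3 :=
          (continuous_norm.tendsto a0).eventually_lt_const (by linarith)
        have h2 : ∀ᶠ a in 𝓝 a0, dist ((4 / r) • (T h0⁻¹ a - y)) w < min ε (1 - ‖w‖) := by
          have h3 := hcb.eventually (ball_mem_nhds _ hε')
          have h4 : (fun a => (4 / r) • (T h0⁻¹ a - y)) a0 = w := hval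
          rw [h4] at h3
          exact h3
        exact h1.and h2
      obtain ⟨a, ⟨ha3, had⟩, ha⟩ := exists_good hn (fun v => F (Af y r v)) (Af y r ⁻¹' Z1)
        (hZ1.preimage (Af_inj hr0)) hAm V a0 hV
      set y' : E n := (4 / r) • (T h0⁻¹ a - y) with hy'
      have hy'w : dist y' w < 1 - ‖w‖ := had.trans_le (min_le_right _ _)
      have hy'1 : ‖y'‖ < 1 := by
        calc ‖y'‖ = ‖(y' - w) + w‖ := by congr 1; abel
          _ ≤ ‖y' - w‖ + ‖w‖ := norm_add_le _ _
          _ < 1 := by rw [← dist_eq_norm]; linarith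
      refine ⟨y', mem_ball_zero_iff.2 hy'1, had.trans_le (min_le_left _ _), ?_⟩
      apply sepd_of_rat
      intro v hv hGv i q
      refine ha v hv ?_ i q
      have hv3 : ‖v‖ ≤ 3 := by simpa using hv
      have hvB : v ∈ BB n := mem_BB.2 (by linarith)
      -- the value determines the point
      have h4 : (4 / r : ℝ) ≠ 0 := by positivity
      have h5 : T h0⁻¹ (F (Af y r v)) = T h0⁻¹ a := by
        have h6 := smul_right_injective (E n) h4 hGv
        simpa using h6
      have hy'B : y' ∈ BB n := mem_BB.2 (by linarith)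
      have h7 : T h0⁻¹ a = Af y r y' := by rw [hy', Af_surj hr0]
      have hinv : ∀ b : E n, ‖b‖ < 3 → T h0 (T h0⁻¹ b) = b := by
        intro b hb
        have hbB : b ∈ BB n := mem_BB.2 (by linarith)
        have h8 := norm_T_le hT h0⁻¹ hbB
        have h9 := hT.inv h0⁻¹ hbB (mem_BB.2 (by linarith))
        rwa [inv_inv] at h9
      have h10 := hinv (F (Af y r v)) (hFn v hvB)
      have h11 := hinv a ha3
      rw [h5, h11] at h10
      exact h10.symm
  -- the subgroup acting trivially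
  have hone : ∀ x : E n, x ∈ ball (0 : E n) 1 → x ∈ BB n := fun x hx => by
    have : ‖x‖ < 1 := by simpa using hx
    exact mem_BB.2 (by linarith)
  let D : Subgroup K' :=
    { carrier := {k | ∀ x ∈ ball (0 : E n) 1, T' k x = x}
      mul_mem' := by
        intro a b ha hb x hx
        have hxB := hone x hx
        have h1 := hT'.mul a b x hxB (by rw [hb x hx]; exact hxB)
        rw [h1, hb x hx, ha x hx]
      one_mem' := by
        intro x hx
        exact hT'.one x (hone x hx)
      inv_mem' := by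
        intro a ha x hx
        have hxB := hone x hx
        have h1 := hT'.inv a hxB (by rw [ha x hx]; exact hxB)
        rw [ha x hx] at h1
        exact h1 }
  have hDc : IsClosed (D : Set K') := by
    have h1 : (D : Set K') = ⋂ x ∈ ball (0 : E n) 1, {k : K' | T' k x = x} := by
      ext k
      simp only [mem_iInter]
      rfl
    rw [h1]
    refine isClosed_biInter fun x hx => ?_
    exact isClosed_eq (hT'.cont_left (hone x hx)) continuous_const
  have hD : D = ⊤ := by
    refine hSYL K' D hDc ?_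
    intro p hp P hPc hPp k hk
    have : CompactSpace P := isCompact_iff_compactSpace.1 hPc.isCompact
    have h1 : Tendsto (fun j : ℕ => (⟨k, hk⟩ : P) ^ p ^ j) atTop (𝓝 1) :=
      Pool.Agent.Y340.SP.t_POW p hp P hPp ⟨k, hk⟩
    have h2 : Tendsto (fun j : ℕ => k ^ p ^ j) atTop (𝓝 1) := by
      have h3 := ((continuous_subtype_val (p := fun x : K' => x ∈ P)).tendsto 1).comp h1
      simpa [Function.comp_def] using h3
    exact key p hp k h2
  -- conclusion
  apply hyT
  refine ⟨K', hK'o, ?_⟩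
  filter_upwards [ball_mem_nhds y (show (0 : ℝ) < r / 4 by positivity)] with x hx k hk
  have hmem : (⟨k, hk⟩ : K') ∈ D := by rw [hD]; exact Subgroup.mem_top _
  have hv : (4 / r) • (x - y) ∈ ball (0 : E n) 1 := by
    have h4 : (0 : ℝ) ≤ 4 / r := by positivity
    rw [mem_ball, dist_eq_norm] at hx
    rw [mem_ball, dist_zero_right, norm_smul, Real.norm_of_nonneg h4]
    calc 4 / r * ‖x - y‖ < 4 / r * (r / 4) := mul_lt_mul_of_pos_left hx (by positivity)
      _ = 1 := by field_simp
  have h1 : (4 / r) • (T k (Af y r ((4 / r) • (x - y))) - y) = (4 / r) • (x - y) := hmem _ hv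
  rw [Af_surj hr0] at h1
  have h4 : (4 / r : ℝ) ≠ 0 := by positivity
  have h2 := smul_right_injective (E n) h4 h1
  simpa using h2

end Pool.Agent.X201.HS
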