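import Pool.Agent.X201.HS.Cls
import Pool.Agent.Y532.SP.LOCS

/-!
The local theorem for one element: a map which is invariant, near the identity and the identity at the
fixed points, with a dense set of totally separated fibres.
-/

set_option autoImplicit false

open MeasureTheory Set Metric Filter Topology
open scoped ENNReal NNReal

namespace Pool.Agent.X201.HS

open Pool.Agent.Y485.HS Pool.Agent.Y489.SP Pool.Agent.Y532.SP.LOCS

/-- the points of the fibre over `y` are separated by coordinate hyperplanes -/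
def Sepd {n : ℕ} (G : E n → E n) (y : E n) : Prop :=
  ∀ x ∈ closedBall (0 : E n) 3, ∀ x' ∈ closedBall (0 : E n) 3, G x = y → G x' = y → x ≠ x' →
    ∃ (i : Fin n) (t : ℝ), (∀ z ∈ closedBall (0 : E n) 3, G z = y → z i ≠ t) ∧
      ((x i < t ∧ t < x' i) ∨ (x' i < t ∧ t < x i))

/-- the fibre misses the rational hyperplanes -/
theorem sepd_of_rat {n : ℕ} {G : E n → E n} {y : E n}
    (h : ∀ z ∈ closedBall (0 : E n) 3, G z = y → ∀ (i : Fin n) (q : ℚ), z i ≠ q) : Sepd G y := by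
  intro x hx x' hx' hGx hGx' hne
  obtain ⟨i, hi⟩ : ∃ i : Fin n, x i ≠ x' i := by
    by_contra hall
    push Not at hall
    exact hne (PiLp.ext hall)
  rcases lt_or_gt_of_ne hi with h3 | h3
  · obtain ⟨q, h1, h2⟩ := exists_rat_btwn h3
    exact ⟨i, q, fun z hz hGz => h z hz hGz i q, Or.inl ⟨h1, h2⟩⟩
  · obtain ⟨q, h1, h2⟩ := exists_rat_btwn h3
    exact ⟨i, q, fun z hz hGz => h z hz hGz i q, Or.inr ⟨h1, h2⟩⟩

/-- a neighbourhood contains a value whose fibre misses the rational hyperplanes -/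
theorem exists_good {n : ℕ} (hn : 1 ≤ n) (F : E n → E n) (Z : Set (E n)) (hZ : Z.Countable)
    (hA : ∀ x ∈ closedBall (0 : E n) 3, x ∉ Z → ∃ m, Am m F x) (V : Set (E n)) (a0 : E n)
    (hV : V ∈ 𝓝 a0) : ∃ a ∈ V, ∀ z ∈ closedBall (0 : E n) 3, F z = a →
      ∀ (i : Fin n) (q : ℚ), z i ≠ q := by
  have hS : closedBall (0 : E n) 3 ⊆ BB n := closedBall_subset_closedBall (by norm_num)
  have hnull : volume (⋃ i : Fin n, ⋃ q : ℚ,
      F '' {x | x ∈ closedBall (0 : E n) 3 ∧ x i = (q : ℝ)}) = 0 := by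
    refine measure_iUnion_null fun i => measure_iUnion_null fun q => ?_
    exact slice_null hn F _ hS Z hZ hA i q
  obtain ⟨O, hOV, hO, ha0⟩ := _root_.mem_nhds_iff.1 hV
  have hpos := hO.measure_pos volume ⟨a0, ha0⟩
  by_contra hcon
  push Not at hcon
  have hsub : O ⊆ ⋃ i : Fin n, ⋃ q : ℚ,
      F '' {x | x ∈ closedBall (0 : E n) 3 ∧ x i = (q : ℝ)} := by
    intro a ha
    obtain ⟨z, hz, hFz, i, q, hzq⟩ := hcon a (hOV ha)
    exact mem_iUnion.2 ⟨i, mem_iUnion.2 ⟨q, z, ⟨hz, hzq⟩, hFz⟩⟩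
  have := measure_mono_null hsub hnull
  rw [this] at hpos
  exact lt_irrefl _ hpos

/-- **the local theorem for one element** -/
theorem locd (hPART : S_PART) (hDEGP : S_DEGP) {p : ℕ} (hp : p.Prime) {n : ℕ} (hn : 1 ≤ n)
    {H : Type} [Group H] [TopologicalSpace H] {T : H → E n → E n} (hT : LocAct n H T) (g : H)
    (hgp : Tendsto (fun j : ℕ => g ^ p ^ j) atTop (𝓝 1)) (G : E n → E n)
    (hGc : ContinuousOn G (BB n)) (hGd : ∀ x ∈ BB n, dist (G x) x ≤ 1 / 4)
    (hGi : ∀ x ∈ BB n, T g x ∈ BB n → G (T g x) = G x)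
    (hGf : ∀ x ∈ BB n, T g x = x → G x = x)
    (hsep : ∀ w ∈ ball (0 : E n) 1, ∀ ε > 0, ∃ y ∈ ball (0 : E n) 1, dist y w < ε ∧ Sepd G y) :
    ∀ x ∈ ball (0 : E n) 1, T g x = x := by
  intro w hw
  by_contra hmove
  have hCB : closedBall (0 : E n) 3 ⊆ BB n := closedBall_subset_closedBall (by norm_num)
  have hw1 : ‖w‖ < 1 := by simpa using hw
  have hwB : BB n ∈ 𝓝 w := by
    refine mem_of_superset (isOpen_ball.mem_nhds (mem_ball_zero_iff.2 (show ‖w‖ < 4 by linarith))) ?_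
    exact ball_subset_closedBall
  have hcw : ContinuousAt (T g) w := (hT.cont_right g).continuousAt hwB
  have hev : ∀ᶠ z in 𝓝 w, T g z ≠ z := by
    have h1 : ContinuousAt (fun z => T g z - z) w := hcw.sub continuousAt_id
    have h2 : T g w - w ≠ 0 := sub_ne_zero.2 hmove
    filter_upwards [h1.eventually_ne h2] with z hz
    exact sub_ne_zero.1 hz
  obtain ⟨ε, hε, hb⟩ := Metric.eventually_nhds_iff.1 hev
  obtain ⟨y, hy1, hyw, hy⟩ := hsep w hw ε hε
  have hymove : T g y ≠ y := hb hyw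
  have hy1' : ‖y‖ < 1 := by simpa using hy1
  set Φ : Set (E n) := {x | x ∈ closedBall (0 : E n) 3 ∧ G x = y} with hΦ
  have hΦB : ∀ x ∈ Φ, x ∈ BB n := fun x hx => hCB hx.1
  have hΦn : ∀ x ∈ Φ, ‖x‖ < 5 / 4 := by
    intro x hx
    have := hGd x (hΦB x hx)
    rw [hx.2, dist_eq_norm] at this
    calc ‖x‖ = ‖y - (y - x)‖ := by congr 1; abel
      _ ≤ ‖y‖ + ‖y - x‖ := norm_sub_le _ _
      _ < _ := by linarith
  have hΦm : ∀ x ∈ Φ, T g x ∈ Φ := by
    intro x hx
    have h1 := hΦn x hx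
    have h2 := norm_T_le hT g (hΦB x hx)
    refine ⟨by simp; linarith, ?_⟩
    rw [hGi x (hΦB x hx) (mem_BB.2 (by linarith))]
    exact hx.2
  have hΦc : IsCompact Φ := by
    have h1 : IsClosed Φ := by
      have h2 : Φ = closedBall (0 : E n) 3 ∩ G ⁻¹' {y} := by
        ext x
        simp [Φ]
      rw [h2]
      exact (hGc.mono hCB).preimage_isClosed_of_isClosed isClosed_closedBall
        (isClosed_singleton (x := y))
    exact (isCompact_closedBall (0 : E n) 3).of_isClosed_subset h1 (fun x hx => hx.1)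
  have hne : ∀ x ∈ Φ, T g x ≠ x := by
    intro x hx hfx
    have h1 := hGf x (hΦB x hx) hfx
    rw [hx.2] at h1
    rw [← h1] at hfx
    exact hymove hfx
  obtain ⟨W, hW1, hW2, hW3, hW4⟩ := hPART n p hp Φ (T g) hΦc
    (fun x hx x' hx' hxx => by
      obtain ⟨i, t, h1, h2⟩ := hy x hx.1 x' hx'.1 hx.2 hx'.2 hxx
      exact ⟨i, t, fun z hz => h1 z hz.1 hz.2, h2⟩)
    ((hT.cont_right g).mono hΦB) hΦm hne
    (fun ε hε => by
      obtain ⟨J, hJ⟩ := unif hT (fun j => g ^ p ^ j) hgp ε hε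
      refine ⟨J, fun x hx => ?_⟩
      rw [(iter_eq hT g Φ hΦB hΦm (p ^ J) x hx).1]
      exact hJ x (hΦB x hx))
  refine hDEGP n hn p hp.two_le G (T g) hGc (hT.cont_right g) hGd (hT.disp g) ?_ y hy1 W
    hW1 hW2 hW3 hW4
  intro x hx
  have hxn : ‖x‖ ≤ 3 := by simpa using hx
  have h2 := norm_T_le hT g (hCB hx)
  exact hGi x (hCB hx) (mem_BB.2 (by linarith))

end Pool.Agent.X201.HS
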