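import Pool.Agent.X201.HS.Tr
import Pool.Agent.Y523.PH.NEWP

/-!
Newman's theorem for pointwise Hölder actions.
-/

set_option autoImplicit false

open MeasureTheory Set Metric Filter Topology
open scoped ENNReal NNReal

noncomputable section

namespace Pool.Agent.X201.HS

open Pool.Agent.Y485.HS Pool.Agent.Y489.SP
open Pool.Agent.Y489.PH (Triv)

/-- a locally trivial action of a pro-`p` group: the centre is fixed -/
theorem centre_fixed (hPART : S_PART) (hDEGP : S_DEGP) {p : ℕ} (hp : p.Prime) {n : ℕ}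
    (hn : 1 ≤ n) {P : Type} [Group P] [TopologicalSpace P] [IsTopologicalGroup P]
    [CompactSpace P] [T2Space P] {T : P → E n → E n} (hT : LocAct n P T)
    (hP : ∀ h, HLoc (T h)) (htriv : ∀ x ∈ ball (0 : E n) 4, Triv T x) (g : P)
    (hgp : Tendsto (fun j : ℕ => g ^ p ^ j) atTop (𝓝 1)) : T g 0 = 0 := by
  obtain ⟨F, hFc, hFi, hFf, hFη, hFA⟩ := exists_av hT 1 g
  refine locd hPART hDEGP hp hn hT g hgp F hFc ?_ hFi ?_ ?_ 0 (by simp)
  · intro x hx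
    have h1 := hFη x hx (1 / 4) (fun k _ => by
      rw [one_mul, hT.one x hx]
      exact hT.disp k x hx)
    rwa [hT.one x hx] at h1
  · intro x hx hfx
    rw [hFf x hx hfx, hT.one x hx]
  · intro w hw ε hε
    have hw1 : ‖w‖ < 1 := by simpa using hw
    have hA : ∀ x ∈ closedBall (0 : E n) 3,
        x ∉ {x | x ∈ ball (0 : E n) 4 ∧ Triv T x ∧ ¬ ∃ m, ∀ k, Am m (T (1 * k)) x} →
        ∃ m, Am m F x := by
      intro x hx hxn
      have hx3 : ‖x‖ ≤ 3 := by simpa using hx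
      have hx4 : x ∈ ball (0 : E n) 4 := mem_ball_zero_iff.2 (by linarith)
      by_contra hcon
      apply hxn
      refine ⟨hx4, htriv x hx4, fun ⟨m, hm⟩ => hcon ⟨m, ?_⟩⟩
      exact hFA m x (mem_BB.2 (by linarith)) fun k _ => hm k
    have hε' : 0 < min ε (1 - ‖w‖) := lt_min hε (by linarith)
    obtain ⟨a, haV, ha⟩ := exists_good hn F _ (triv_countable hT hP 1) hA
      (ball w (min ε (1 - ‖w‖))) w (ball_mem_nhds _ hε')
    have haw : dist a w < min ε (1 - ‖w‖) := haV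
    have ha1 : ‖a‖ < 1 := by
      have h1 := haw.trans_le (min_le_right _ _)
      calc ‖a‖ = ‖(a - w) + w‖ := by congr 1; abel
        _ ≤ ‖a - w‖ + ‖w‖ := norm_add_le _ _
        _ < 1 := by rw [← dist_eq_norm]; linarith
    exact ⟨a, mem_ball_zero_iff.2 ha1, haw.trans_le (min_le_left _ _), sepd_of_rat ha⟩

theorem newman (hPART : S_PART) (hDEGP : S_DEGP) (hCO : S_COORD) {n : ℕ} (hn : 1 ≤ n)
    {X : Type} [MetricSpace X] {p : ℕ} (hp : p.Prime) {P : Type} [Group P] [TopologicalSpace P]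
    [IsTopologicalGroup P] [CompactSpace P] [T2Space P] [TotallyDisconnectedSpace P]
    (hPp : ProP p P) [MulAction P X] [ContinuousSMul P X]
    (hsob : ∀ h : P, PHol n (fun x : X => h • x)) {x0 : X} (hx0 : x0 ∈ Reg n X)
    (K : Subgroup P) (hK : IsOpen (K : Set P)) (hKt : ∀ᶠ x in 𝓝 x0, ∀ k ∈ K, k • x = x)
    (hcl : ∀ V ∈ 𝓝 x0, ∃ a ∈ V, ∀ᶠ x in 𝓝 a, ∀ k : P, k • x = x) :
    ∀ᶠ x in 𝓝 x0, ∀ k : P, k • x = x := by
  by_contra hcon
  obtain ⟨U, ψ, L, hxU, hU⟩ := hx0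
  -- `x0` is fixed
  have hfix0 : ∀ k : P, k • x0 = x0 := by
    have h1 : IsClosed {x : X | ∀ k : P, k • x = x} := by
      have : {x : X | ∀ k : P, k • x = x} = ⋂ k : P, {x | k • x = x} := by ext; simp
      rw [this]
      exact isClosed_iInter fun k => isClosed_eq (continuous_const_smul k) continuous_id
    have h2 : x0 ∈ closure {x : X | ∀ k : P, k • x = x} := by
      rw [mem_closure_iff_nhds]
      intro V hV
      obtain ⟨a, haV, ha⟩ := hcl V hV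
      exact ⟨a, haV, ha.self_of_nhds⟩
    rw [h1.closure_eq] at h2
    exact h2
  -- a neighbourhood which stays in the chart
  have hstay : ∀ᶠ x in 𝓝 x0, ∀ k : P, k • x ∈ U := by
    have h1 : ∀ k ∈ (univ : Set P), ∀ᶠ q : X × P in 𝓝 (x0, k), q.2 • q.1 ∈ U := by
      intro k _
      have hc : Continuous (fun q : X × P => q.2 • q.1) := by fun_prop
      have hc' : ContinuousAt (fun q : X × P => q.2 • q.1) (x0, k) := hc.continuousAt
      refine hc'.eventually_mem ?_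
      show U ∈ 𝓝 (k • x0)
      rw [hfix0 k]
      exact hU.1.mem_nhds hxU
    have h2 := isCompact_univ.eventually_forall_of_forall_eventually
      (P := fun (x : X) (k : P) => k • x ∈ U) h1
    filter_upwards [h2] with x hx k using hx k (mem_univ k)
  set z : E n := ψ x0 with hz
  set θ : E n → X := inv' U ψ x0 with hθ
  have hθc : ContinuousOn θ (ψ '' U) := hU.inv'_cont x0
  have hθψ : ∀ x ∈ U, θ (ψ x) = x := fun x hx => hU.inv'_left hx
  have hψθ : ∀ y ∈ ψ '' U, ψ (θ y) = y := fun y hy => inv'_eq hy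
  have hθU : ∀ y ∈ ψ '' U, θ y ∈ U := fun y hy => inv'_mem hy
  have hzU : z ∈ ψ '' U := mem_image_of_mem ψ hxU
  have hnz : ψ '' U ∈ 𝓝 z := hU.2.1.mem_nhds hzU
  have hG : ∀ᶠ y in 𝓝 z, y ∈ ψ '' U ∧ (∀ k : P, k • θ y ∈ U) ∧ ∀ k ∈ K, k • θ y = θ y := by
    have h1 : Tendsto θ (𝓝 z) (𝓝 x0) := by
      have := (hθc z hzU).continuousAt hnz
      rw [ContinuousAt, hz, hθψ x0 hxU] at this
      exact this
    filter_upwards [hnz, h1.eventually hstay, h1.eventually hKt] with y h2 h3 h4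
    exact ⟨h2, h3, h4⟩
  obtain ⟨ρ, hρ, hρG⟩ := (nhds_basis_closedBall.mem_iff).1 hG
  have hρU : closedBall z ρ ⊆ ψ '' U := fun y hy => (hρG hy).1
  let T0 : P → E n → E n := fun k y => ψ (k • θ y)
  have hT0c : ContinuousOn (fun q : P × E n => T0 q.1 q.2) (univ ×ˢ closedBall z ρ) := by
    have h1 : ContinuousOn (fun q : P × E n => θ q.2) (univ ×ˢ closedBall z ρ) :=
      hθc.comp continuousOn_snd (fun q hq => hρU hq.2)
    have h2 : ContinuousOn (fun q : P × E n => q.1 • θ q.2) (univ ×ˢ closedBall z ρ) :=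
      continuousOn_fst.smul h1
    exact hU.cont.comp h2 (fun q hq => (hρG hq.2).2.1 q.1)
  have hT01 : ∀ x ∈ closedBall z ρ, T0 1 x = x := fun y hy => by
    show ψ ((1 : P) • θ y) = y
    rw [one_smul, hψθ y (hρU hy)]
  have hT0m : ∀ h k, ∀ x ∈ closedBall z ρ, T0 k x ∈ closedBall z ρ →
      T0 (h * k) x = T0 h (T0 k x) := by
    intro h k y hy _
    show ψ ((h * k) • θ y) = ψ (h • θ (ψ (k • θ y)))
    rw [hθψ _ ((hρG hy).2.1 k), mul_smul]
  have hV : U ∩ ψ ⁻¹' ball z ρ ∈ 𝓝 x0 :=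
    (hU.cont.isOpen_inter_preimage hU.1 isOpen_ball).mem_nhds ⟨hxU, mem_ball_self hρ⟩
  obtain ⟨a, haV, ha⟩ := hcl _ hV
  obtain ⟨x1, hx1V, hx1⟩ : ∃ x1 ∈ U ∩ ψ ⁻¹' ball z ρ, ¬ ∀ k : P, k • x1 = x1 := by
    by_contra h
    push Not at h
    exact hcon (mem_of_superset hV fun x hx => h x hx)
  push Not at hx1
  obtain ⟨k1, hk1⟩ := hx1
  have ha' : ∀ᶠ y in 𝓝 (ψ a), ∀ k, T0 k y = y := by
    have hmem : ψ '' U ∈ 𝓝 (ψ a) := hU.2.1.mem_nhds (mem_image_of_mem ψ haV.1)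
    have h1 : Tendsto θ (𝓝 (ψ a)) (𝓝 a) := by
      have := (hθc (ψ a) (mem_image_of_mem ψ haV.1)).continuousAt hmem
      rw [ContinuousAt, hθψ a haV.1] at this
      exact this
    filter_upwards [hmem, h1.eventually ha] with y hy h2 k
    show ψ (k • θ y) = y
    rw [h2 k, hψθ y hy]
  have hx1' : ∃ k, T0 k (ψ x1) ≠ ψ x1 := by
    refine ⟨k1, ?_⟩
    show ψ (k1 • θ (ψ x1)) ≠ ψ x1
    rw [hθψ x1 hx1V.1]
    intro h
    have h2 := (hρG (ball_subset_closedBall hx1V.2)).2.1 k1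
    rw [hθψ x1 hx1V.1] at h2
    exact hk1 (hU.inj h2 hx1V.1 h)
  obtain ⟨w, O, Φ, L', ⟨kw, hkw⟩, hwO, hOρ, hOo, hΦO, hΦL, hΦw, hΦB, hΦs⟩ :=
    hCO n hn P T0 z ρ hρ hT0c hT01 hT0m (ψ a) haV.2 (ψ x1) hx1V.2 ha' hx1'
  have hOU : O ⊆ ψ '' U := fun y hy => hρU (ball_subset_closedBall (hOρ hy))
  -- the new chart
  let U1 : Set X := U ∩ ψ ⁻¹' O
  let ψ1 : X → E n := fun x => Φ (ψ x)
  have himg : ψ1 '' U1 = Φ '' O := by
    ext y
    constructor
    · rintro ⟨x, ⟨hx, hxO⟩, rfl⟩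
      exact ⟨ψ x, hxO, rfl⟩
    · rintro ⟨v, hv, rfl⟩
      obtain ⟨x, hx, rfl⟩ := hOU hv
      exact ⟨x, ⟨hx, hv⟩, rfl⟩
  have hU1 : BiLip n U1 ψ1 (|L| * |L'|) := by
    refine ⟨hU.cont.isOpen_inter_preimage hU.1 hOo, by rw [himg]; exact hΦO, ?_⟩
    rintro b ⟨hb, hbO⟩ c ⟨hc, hcO⟩
    have h1 := hU.2.2 b hb c hc
    have h2 := hΦL (ψ b) hbO (ψ c) hcO
    have d1 : (0 : ℝ) ≤ dist (ψ b) (ψ c) := dist_nonneg
    have d2 : (0 : ℝ) ≤ dist b c := dist_nonneg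
    have d3 : (0 : ℝ) ≤ dist (Φ (ψ b)) (Φ (ψ c)) := dist_nonneg
    constructor
    · calc dist (Φ (ψ b)) (Φ (ψ c)) ≤ L' * dist (ψ b) (ψ c) := h2.1
        _ ≤ |L'| * dist (ψ b) (ψ c) := mul_le_mul_of_nonneg_right (le_abs_self _) d1
        _ ≤ |L'| * (|L| * dist b c) := by
            refine mul_le_mul_of_nonneg_left (h1.1.trans ?_) (abs_nonneg _)
            exact mul_le_mul_of_nonneg_right (le_abs_self _) d2
        _ = |L| * |L'| * dist b c := by ring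
    · calc dist b c ≤ L * dist (ψ b) (ψ c) := h1.2
        _ ≤ |L| * dist (ψ b) (ψ c) := mul_le_mul_of_nonneg_right (le_abs_self _) d1
        _ ≤ |L| * (|L'| * dist (Φ (ψ b)) (Φ (ψ c))) := by
            refine mul_le_mul_of_nonneg_left (h2.2.trans ?_) (abs_nonneg _)
            exact mul_le_mul_of_nonneg_right (le_abs_self _) d3
        _ = |L| * |L'| * dist (Φ (ψ b)) (Φ (ψ c)) := by ring
  have hρx : ∀ x ∈ U1, (∀ k : P, k • x ∈ U) ∧ ∀ k ∈ K, k • x = x := by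
    rintro x ⟨hx, hxO⟩
    have := hρG (ball_subset_closedBall (hOρ hxO))
    rw [Set.mem_ofPred_eq, hθψ x hx] at this
    exact this.2
  have hsmall1 : ∀ h : P, ∀ x ∈ U1, ψ1 x ∈ closedBall 0 4 →
      h • x ∈ U1 ∧ dist (ψ1 (h • x)) (ψ1 x) ≤ 1 / 4 := by
    rintro h x hx hx4
    have h1 := hΦs (ψ x) hx.2 hx4 h
    have h2 : T0 h (ψ x) = ψ (h • x) := by
      show ψ (h • θ (ψ x)) = _
      rw [hθψ x hx.1]
    rw [h2] at h1
    exact ⟨⟨(hρx x hx).1 h, h1.1⟩, h1.2⟩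
  obtain ⟨T1, hT1, hT1s, hT1ψ⟩ := tr hn hU1 (by rw [himg]; exact hΦB)
    hsmall1 hsob
  -- the action is locally trivial
  have hcos : ∀ k ∈ K, ∀ y ∈ BB n, T1 k y = y := by
    intro k hk y hy
    have hy' : y ∈ ψ1 '' U1 := by rw [himg]; exact hΦB hy
    obtain ⟨x, hx, rfl⟩ := hy'
    rw [hT1ψ _ x hx hy, (hρx x hx).2 k hk]
  have hTriv : ∀ x ∈ ball (0 : E n) 4, Triv T1 x := by
    intro x hx
    refine ⟨K, hK, ?_⟩
    filter_upwards [isOpen_ball.mem_nhds hx] with y hy k hk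
    exact hcos k hk y (ball_subset_closedBall hy)
  have hfin := centre_fixed hPART hDEGP hp hn hT1 hT1s hTriv kw
    (Pool.Agent.Y340.SP.t_POW p hp P hPp kw)
  obtain ⟨xw, hxw, hxww⟩ := hOU hwO
  have hxw1 : xw ∈ U1 := ⟨hxw, by rw [mem_preimage, hxww]; exact hwO⟩
  have hψ1w : ψ1 xw = 0 := by show Φ (ψ xw) = 0; rw [hxww, hΦw]
  have h1 := hT1ψ kw xw hxw1 (by rw [hψ1w]; simp)
  rw [hψ1w, hfin] at h1
  have h2 : T0 kw w = ψ (kw • xw) := by
    show ψ (kw • θ w) = _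
    rw [← hxww, hθψ xw hxw]
  have h3 := (hΦs w hwO (by rw [hΦw]; simp) kw).1
  have h4 := (hΦL _ h3 w hwO).2
  have h5 : Φ (T0 kw w) = 0 := by rw [h2]; exact h1.symm
  rw [h5, hΦw, dist_self, mul_zero] at h4
  exact hkw (dist_le_zero.1 h4)

end Pool.Agent.X201.HS
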